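import Pool.Agent.H79.PRK.S9
import Pool.Agent.H70.HYP.NMU

/-!
# PRK: EMBK (the classes of the points)
-/

set_option autoImplicit false

namespace Pool.PRK

open Polynomial Matrix Pool.HYP Pool.TOW Pool.AVS Pool.T1 IsDedekindDomain

namespace EMBK70

section

variable {K : Type} [Field K]

theorem cub_eq (f : K[X]) (hf : f.Monic) (hd : f.natDegree = 3) :
    Pool.AVR.cub (f.coeff 2) (f.coeff 1) (f.coeff 0) = f := by
  have h3 : f.coeff 3 = 1 := by
    rw [← hd]
    exact hf
  ext n
  unfold Pool.AVR.cub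
  rcases lt_or_ge n 4 with h | h
  · interval_cases n <;> simp [coeff_X, h3, coeff_C]
  · have e1 : f.coeff n = 0 := Polynomial.coeff_eq_zero_of_natDegree_lt (by omega)
    rw [e1]
    refine Polynomial.coeff_eq_zero_of_natDegree_lt ?_
    have : (X ^ 3 + C (f.coeff 2) * X ^ 2 + C (f.coeff 1) * X + C (f.coeff 0) : K[X]).natDegree
        = 3 := by compute_degree!
    omega

theorem onC_of (f : K[X]) (hf : f.Monic) (hd : f.natDegree = 3) (x y : K)
    (h : (Pool.AVR.E (f.coeff 2) (f.coeff 1) (f.coeff 0)).toAffine.Nonsingular x y) :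
    y ^ 2 = f.eval x := by
  have h1 := h.1
  rw [WeierstrassCurve.Affine.equation_iff] at h1
  simp only [Pool.AVR.E] at h1
  have h2 : f.eval x = x ^ 3 + f.coeff 2 * x ^ 2 + f.coeff 1 * x + f.coeff 0 := by
    conv_lhs => rw [← cub_eq f hf hd]
    simp [Pool.AVR.cub]
  rw [h2]
  linear_combination h1

theorem y_ne (f : K[X]) (hd : f.natDegree = 3) (hfi : Irreducible f) (x y : K)
    (h : y ^ 2 = f.eval x) : y ≠ 0 := by
  rintro rfl
  have h1 : f.eval x = 0 := by rw [← h]; ring
  have h2 := Polynomial.degree_eq_one_of_irreducible_of_root hfi h1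
  rw [Polynomial.degree_eq_natDegree hfi.ne_zero, hd] at h2
  norm_cast at h2

theorem unit_of (f : K[X]) (hd : f.natDegree = 3) (hfi : Irreducible f) (x : K) :
    IsUnit (AdjoinRoot.mk f (C x - X)) := by
  have : Fact (Irreducible f) := ⟨hfi⟩
  refine isUnit_iff_ne_zero.2 fun h => ?_
  have h1 : f ∣ C x - X := AdjoinRoot.mk_eq_zero.1 h
  have h2 : (C x - X : K[X]) ≠ 0 := by
    intro h3
    have := congrArg (fun p => coeff p 1) h3
    simp at this
  have h4 := Polynomial.natDegree_le_of_dvd h1 h2
  have h5 : (C x - X : K[X]).natDegree ≤ 1 := by compute_degree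
  omega

open Classical in
/-- The class of a point. -/
noncomputable def cl (f : K[X]) : PtF f → (AdjoinRoot f)ˣ ⧸ SqG f
  | .zero => 1
  | .some x _ _ => if h : IsUnit (AdjoinRoot.mk f (C x - X)) then
      QuotientGroup.mk h.unit else 1

theorem cl_some (f : K[X]) (x y : K)
    (h : (Pool.AVR.E (f.coeff 2) (f.coeff 1) (f.coeff 0)).toAffine.Nonsingular x y)
    (hU : IsUnit (AdjoinRoot.mk f (C x - X))) :
    cl f (WeierstrassCurve.Affine.Point.some x y h) = QuotientGroup.mk hU.unit :=
  dif_pos hU

theorem cle (f : K[X]) (p q : K[X]) (u v : (AdjoinRoot f)ˣ)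
    (hu : AdjoinRoot.mk f p = u) (hv : AdjoinRoot.mk f q = v)
    (h : (QuotientGroup.mk u : (AdjoinRoot f)ˣ ⧸ SqG f) = QuotientGroup.mk v) :
    ∃ s : K[X], f ∣ p - q * s ^ 2 := by
  rw [QuotientGroup.eq] at h
  obtain ⟨w, hw⟩ := h
  obtain ⟨s, hs⟩ := AdjoinRoot.mk_surjective ((w⁻¹ : (AdjoinRoot f)ˣ) : AdjoinRoot f)
  refine ⟨s, ?_⟩
  rw [← AdjoinRoot.mk_eq_zero, map_sub, map_mul, map_pow, hu, hv, hs, sub_eq_zero]
  have h1 : w ^ 2 = u⁻¹ * v := hw
  have h2 : u = v * w⁻¹ ^ 2 := by
    rw [inv_pow, h1]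
    group
  rw [← Units.val_pow_eq_pow_val, ← Units.val_mul, ← h2]

end

end EMBK70

open EMBK70

open Classical in
/-- **EMBK.** -/
theorem embk : EMBKStmt := by
  intro hHOM hKER K _ h2 f hf hd hfi hsep
  have hcub := cub_eq f hf hd
  have hsep' : (Pool.AVR.cub (f.coeff 2) (f.coeff 1) (f.coeff 0)).Separable := by
    rw [hcub]; exact hsep
  -- classes lie in the Selmer group
  have hmem : ∀ R : PtF f, cl f R ∈ SelG f := by
    intro R
    cases R with
    | zero =>
      refine ⟨1, 1, rfl, by rw [map_one, Units.val_one], ?_, ?_⟩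
      · refine ⟨1, ?_⟩
        rw [map_one, map_one, mul_one]
      · intro L _ O ι _
        refine ⟨1, 0, 1, monic_one, isCoprime_one_left, one_dvd _, ?_⟩
        rw [natDegree_one, pow_zero, Polynomial.map_one]
        simp
    | some x y h =>
      have hC := onC_of f hf hd x y h
      have hy := y_ne f hd hfi x y hC
      have hU := unit_of f hd hfi x
      have h3 := cl_some f x y h hU
      rw [h3]
      refine ⟨hU.unit, C x - X, rfl, hU.unit_spec.symm, ?_, ?_⟩
      · refine ⟨y, ?_⟩
        rw [Pool.HYP.NMU.norm_sub f hf, ← hC, pow_two]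
      · intro L _ O ι _
        have hev : (f.map ι).eval (ι x) = ι y ^ 2 := by
          rw [Polynomial.eval_map, Polynomial.eval₂_at_apply, ← hC, map_pow]
        have hy' : ι y ≠ 0 := (map_ne_zero ι).2 hy
        refine ⟨X - C (ι x), C (ι y), 1, monic_X_sub_C _, ?_, ?_, ?_⟩
        · refine ((Polynomial.irreducible_X_sub_C (ι x)).coprime_iff_not_dvd).2 fun h4 => ?_
          rw [Polynomial.dvd_iff_isRoot, Polynomial.IsRoot.def, hev] at h4
          exact pow_ne_zero 2 hy' h4
        · rw [Polynomial.dvd_iff_isRoot, Polynomial.IsRoot.def, Polynomial.eval_sub,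
            Polynomial.eval_pow, Polynomial.eval_C, hev, sub_self]
        · rw [natDegree_X_sub_C]
          simp
  -- injectivity
  have hinj : ∀ R R' : PtF f, cl f R = cl f R' → ∃ Q : PtF f, R - R' = Q + Q := by
    intro R R' he
    cases R with
    | zero =>
      cases R' with
      | zero => exact ⟨0, by simp⟩
      | some x y h =>
        have hU := unit_of f hd hfi x
        have h3 := cl_some f x y h hU
        have h4 : cl f (WeierstrassCurve.Affine.Point.zero) = QuotientGroup.mk 1 := rfl
        rw [h3, h4] at he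
        obtain ⟨s, hs⟩ := cle f (C x - X) 1 hU.unit 1 hU.unit_spec.symm
          (by rw [map_one, Units.val_one]) he.symm
        rw [one_mul] at hs
        obtain ⟨Q, hQ⟩ := hKER K h2 _ _ _ hsep' x y h s (by rw [hcub]; exact hs)
        refine ⟨-Q, ?_⟩
        have : (WeierstrassCurve.Affine.Point.zero : PtF f) = 0 := rfl
        rw [this, hQ]
        abel
    | some x y h =>
      have hC := onC_of f hf hd x y h
      have hy := y_ne f hd hfi x y hC
      have hU := unit_of f hd hfi x
      have h3 := cl_some f x y h hU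
      cases R' with
      | zero =>
        have h4 : cl f (WeierstrassCurve.Affine.Point.zero) = QuotientGroup.mk 1 := rfl
        rw [h3, h4] at he
        obtain ⟨s, hs⟩ := cle f (C x - X) 1 hU.unit 1 hU.unit_spec.symm
          (by rw [map_one, Units.val_one]) he
        rw [one_mul] at hs
        obtain ⟨Q, hQ⟩ := hKER K h2 _ _ _ hsep' x y h s (by rw [hcub]; exact hs)
        refine ⟨Q, ?_⟩
        have : (WeierstrassCurve.Affine.Point.zero : PtF f) = 0 := rfl
        rw [this, hQ]
        abel
      | some x' y' h' =>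
        have hC' := onC_of f hf hd x' y' h'
        have hy' := y_ne f hd hfi x' y' hC'
        have hU' := unit_of f hd hfi x'
        have h3' := cl_some f x' y' h' hU'
        rw [h3, h3'] at he
        obtain ⟨s, hs⟩ := cle f (C x - X) (C x' - X) hU.unit hU'.unit hU.unit_spec.symm
          hU'.unit_spec.symm he
        refine hHOM K h2 _ _ _ hsep' x y h x' y' h' ((C x' - X) * s) hy hy' ?_
        have h5 : (C x - X) * (C x' - X) - ((C x' - X) * s) ^ 2 =
            (C x - X - (C x' - X) * s ^ 2) * (C x' - X) := by ring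
        rw [h5, hcub]
        exact Dvd.dvd.mul_right hs _
  refine ⟨fun q => cl f q.out, ?_, fun q => hmem _⟩
  intro q q' hq
  obtain ⟨Q, hQ⟩ := hinj _ _ hq
  rw [← QuotientAddGroup.out_eq' q, ← QuotientAddGroup.out_eq' q']
  apply QuotientAddGroup.eq.mpr
  refine ⟨-Q, ?_⟩
  simp only [nsmulAddMonoidHom_apply, two_nsmul]
  have h7 : -Quotient.out q + Quotient.out q' = -(Quotient.out q - Quotient.out q') := by abel
  rw [h7, hQ]
  abel

end Pool.PRK
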